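import Mathlib

namespace Pool.Agent.Results.MP_43f51c_co.Counter

/-- outer-connected dominating set -/
def OCD {W : Type} (H : SimpleGraph W) (D : Finset W) : Prop :=
  (∀ x, x ∉ D → ∃ y ∈ D, H.Adj x y) ∧ (H.induce ((D : Set W)ᶜ)).Connected

noncomputable def ocd {W : Type} (H : SimpleGraph W) : ℕ :=
  sInf {k | ∃ D, OCD H D ∧ D.card = k}

/-- middle graph -/
def mid {V : Type} (G : SimpleGraph V) : SimpleGraph (V ⊕ G.edgeSet) where
  Adj
    | .inl _, .inl _ => False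
    | .inl v, .inr e => v ∈ (e : Sym2 V)
    | .inr e, .inl v => v ∈ (e : Sym2 V)
    | .inr e, .inr f => G.lineGraph.Adj e f
  symm := ⟨by
    rintro (a | a) (b | b) h
    · exact h
    · exact h
    · exact h
    · exact SimpleGraph.Adj.symm h⟩
  loopless := ⟨by
    rintro (a | a) h
    · exact h
    · exact G.lineGraph.irrefl h⟩

def el : List (Fin 8 × Fin 8) :=
  [(0,6),(1,7),(2,5),(3,4),(6,7),(0,7),(1,6),(2,7),(3,6),(4,6),(5,7)]

def G : SimpleGraph (Fin 8) where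
  Adj a b := (a, b) ∈ el ∨ (b, a) ∈ el
  symm := ⟨fun _ _ h => h.symm⟩
  loopless := ⟨by decide⟩

instance : DecidableRel G.Adj := fun _ _ => inferInstanceAs (Decidable (_ ∨ _))

def p (i : Fin 11) : Fin 8 × Fin 8 := el.getD i (0, 6)

theorem hp : ∀ i, G.Adj (p i).1 (p i).2 := by decide

def ed (i : Fin 11) : G.edgeSet := ⟨s((p i).1, (p i).2), hp i⟩

theorem ed_inj : Function.Injective ed := by
  have : ∀ i j : Fin 11, s((p i).1, (p i).2) = s((p j).1, (p j).2) → i = j := by decide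
  exact fun i j h => this i j (congrArg Subtype.val h)

theorem ed_surj (e : G.edgeSet) : ∃ i, e = ed i := by
  obtain ⟨e, he⟩ := e
  induction e using Sym2.ind with
  | h a b =>
    have : ∀ a b, G.Adj a b → ∃ i, s(a, b) = s((p i).1, (p i).2) := by decide
    obtain ⟨i, hi⟩ := this a b he
    exact ⟨i, Subtype.ext hi⟩

def A (i j : Fin 11) : Prop :=
  i ≠ j ∧ ((p i).1 = (p j).1 ∨ (p i).1 = (p j).2 ∨ (p i).2 = (p j).1 ∨ (p i).2 = (p j).2)

instance : DecidableRel A := fun _ _ => inferInstanceAs (Decidable (_ ∧ _))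

theorem adj_iff (i j : Fin 11) : G.lineGraph.Adj (ed i) (ed j) ↔ A i j := by
  rw [SimpleGraph.lineGraph_adj_iff_exists, ed_inj.ne_iff]
  refine and_congr Iff.rfl ?_
  simp only [ed, Sym2.mem_iff]
  constructor
  · rintro ⟨v, rfl | rfl, h | h⟩ <;> simp [h]
  · rintro (h | h | h | h)
    · exact ⟨_, Or.inl rfl, Or.inl h⟩
    · exact ⟨_, Or.inl rfl, Or.inr h⟩
    · exact ⟨_, Or.inr rfl, Or.inl h⟩
    · exact ⟨_, Or.inr rfl, Or.inr h⟩

def em : Fin 8 ⊕ Fin 11 → Fin 8 ⊕ G.edgeSet := Sum.map id ed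

def B : Fin 8 ⊕ Fin 11 → Fin 8 ⊕ Fin 11 → Prop
  | .inl _, .inl _ => False
  | .inl v, .inr e => v = (p e).1 ∨ v = (p e).2
  | .inr e, .inl v => v = (p e).1 ∨ v = (p e).2
  | .inr e, .inr f => A e f

instance : DecidableRel B := fun a b => by
  cases a <;> cases b <;> unfold B <;> infer_instance

theorem hB (a b : Fin 8 ⊕ Fin 11) (h : B a b) : (mid G).Adj (em a) (em b) := by
  rcases a with a | a <;> rcases b with b | b
  · exact h
  · exact Sym2.mem_iff.2 h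
  · exact Sym2.mem_iff.2 h
  · exact (adj_iff a b).2 h

theorem em_surj (x : Fin 8 ⊕ G.edgeSet) : ∃ a, x = em a := by
  rcases x with v | e
  · exact ⟨.inl v, rfl⟩
  · obtain ⟨i, rfl⟩ := ed_surj e
    exact ⟨.inr i, rfl⟩

theorem em_inj : Function.Injective em := Sum.map_injective.2 ⟨Function.injective_id, ed_inj⟩

def D0 : Finset (Fin 8 ⊕ Fin 11) := {.inr 0, .inr 1, .inr 2, .inr 3}

def dep : Fin 8 ⊕ Fin 11 → ℕ
  | .inl _ => 2
  | .inr e => if e = 4 then 0 else 1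

theorem upM : ∃ D, OCD (mid G) D ∧ D.card = 4 := by
  have mD : ∀ a, em a ∈ D0.map ⟨em, em_inj⟩ ↔ a ∈ D0 := fun a => Finset.mem_map' ⟨em, em_inj⟩
  refine ⟨D0.map ⟨em, em_inj⟩, ⟨fun x hx => ?_, ?_⟩, by rw [Finset.card_map]; decide⟩
  · obtain ⟨a, rfl⟩ := em_surj x
    obtain ⟨b, hb, hab⟩ := (by decide : ∀ a, a ∉ D0 → ∃ b ∈ D0, B a b) a (fun h => hx ((mD a).2 h))
    exact ⟨em b, (mD b).2 hb, hB a b hab⟩
  · have h6 : em (.inr 4) ∉ D0.map ⟨em, em_inj⟩ := fun h => absurd ((mD _).1 h) (by decide)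
    have hs : ∀ a, a ∉ D0 → a = .inr 4 ∨ ∃ b, b ∉ D0 ∧ B b a ∧ dep b < dep a := by decide
    have key : ∀ n a (ha : em a ∉ D0.map ⟨em, em_inj⟩), dep a < n →
        ((mid G).induce ((D0.map ⟨em, em_inj⟩ : Finset _) : Set _)ᶜ).Reachable ⟨_, h6⟩ ⟨em a, ha⟩ := by
      intro n
      induction n with
      | zero => intro a _ h; omega
      | succ n ih =>
        intro a ha h
        rcases hs a (fun h => ha ((mD a).2 h)) with rfl | ⟨b, hb, hba, hd⟩
        · rfl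
        · have hb' : em b ∉ D0.map ⟨em, em_inj⟩ := fun h => hb ((mD b).1 h)
          exact (ih b hb' (by omega)).trans (SimpleGraph.Adj.reachable (hB b a hba))
    have : Nonempty (((D0.map ⟨em, em_inj⟩ : Finset _) : Set (Fin 8 ⊕ G.edgeSet))ᶜ : Set _) :=
      ⟨⟨_, h6⟩⟩
    refine ⟨?_⟩
    rintro ⟨x, hx⟩ ⟨y, hy⟩
    obtain ⟨a, rfl⟩ := em_surj x
    obtain ⟨b, rfl⟩ := em_surj y
    exact (key _ a hx (Nat.lt_succ_self _)).symm.trans (key _ b hy (Nat.lt_succ_self _))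

def cuts : List (Finset (Fin 8)) := [{0}, {1}, {2, 5}, {3, 4}]

theorem small : ∀ E : Finset (Fin 8), E.card ≤ 3 → (∀ x, x ∉ E → ∃ y ∈ E, G.Adj x y) →
    ∃ T ∈ cuts, (∃ a ∈ T, a ∉ E) ∧ (∃ b, b ∉ T ∧ b ∉ E) ∧
      ∀ a ∈ T, ∀ b, G.Adj a b → b ∉ E → b ∈ T := by
  decide +kernel

theorem lowG (D : Finset (Fin 8)) (h : OCD G D) : 4 ≤ D.card := by
  by_contra hc
  obtain ⟨T, -, ⟨a, ha, ha'⟩, ⟨b, hb, hb'⟩, hT⟩ := small D (by omega) h.1
  have hr := h.2.preconnected ⟨a, ha'⟩ ⟨b, hb'⟩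
  rw [SimpleGraph.reachable_iff_reflTransGen] at hr
  have key : ∀ z : ((D : Set (Fin 8))ᶜ : Set (Fin 8)),
      Relation.ReflTransGen (G.induce ((D : Set (Fin 8))ᶜ)).Adj ⟨a, ha'⟩ z → z.1 ∈ T := by
    intro z hz
    induction hz with
    | refl => exact ha
    | @tail u w _ huw ih => exact hT u.1 ih w.1 huw w.2
  exact hb (key _ hr)

theorem result : ∃ (n : ℕ) (G : SimpleGraph (Fin n)), 2 ≤ n ∧ G.Connected ∧
    ocd (mid G) ≤ ocd G ∧ 0 < ocd (mid G) := by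
  refine ⟨8, G, by norm_num, ?_, ?_, ?_⟩
  · have h1 : ∀ x : Fin 8, x = 6 ∨ G.Adj 6 x ∨ ∃ y, G.Adj 6 y ∧ G.Adj y x := by decide
    have h2 : ∀ x, G.Reachable 6 x := fun x => by
      rcases h1 x with rfl | h | ⟨y, h, h'⟩
      · rfl
      · exact h.reachable
      · exact h.reachable.trans h'.reachable
    exact ⟨fun a b => (h2 a).symm.trans (h2 b)⟩
  · have h1 : ocd (mid G) ≤ 4 := Nat.sInf_le upM
    have hne : {k | ∃ D, OCD G D ∧ D.card = k}.Nonempty := by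
      refine ⟨_, Finset.univ.erase 0, ⟨by decide, ?_⟩, rfl⟩
      have : Nonempty (((Finset.univ.erase (0 : Fin 8) : Finset _) : Set (Fin 8))ᶜ : Set _) :=
        ⟨⟨0, by simp⟩⟩
      refine ⟨?_⟩
      rintro ⟨x, hx⟩ ⟨y, hy⟩
      have hx' : x = 0 := by simpa using hx
      have hy' : y = 0 := by simpa using hy
      subst hx' hy'
      rfl
    obtain ⟨D, hD, hk⟩ := Nat.sInf_mem hne
    have := lowG D hD
    unfold ocd at *
    omega
  · obtain ⟨D, hD, hk⟩ := Nat.sInf_mem (s := {k | ∃ D, OCD (mid G) D ∧ D.card = k}) ⟨4, upM⟩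
    unfold ocd
    rw [← hk, Finset.card_pos]
    by_cases h : Sum.inl 0 ∈ D
    · exact ⟨_, h⟩
    · obtain ⟨y, hy, -⟩ := hD.1 _ h
      exact ⟨y, hy⟩

end Pool.Agent.Results.MP_43f51c_co.Counter
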